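import Mathlib

/-!
# A disconnected bounded Pareto solution set of a monotone problem

`n = 4`, `m = 2`, `K = {0 ≤ y₁ ≤ 1, 0 ≤ y₂ ≤ 1, y₄² ≤ y₃ ≤ 1}` (compact and convex),
`F₁(y) = (y₃, y₂, 2 - y₁, 0)`, `F₂(y) = (-y₂, y₁ - 1, 0, 5)` (affine and monotone).
The point `(1, 0, 0, 0)` is an isolated point of the Pareto solution set, which also contains
`(0, 2/5, 1/4, -1/2)`.
-/

open Set Filter Topology
open scoped RealInnerProductSpace

namespace Pool.Agent.Results.MP_177738_an.CompactDisconnected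

/-- The Pareto solution set of the vector variational inequality: the points `x ∈ K` such that
`(⟪F₁ x, x - y⟫, …, ⟪F_m x, x - y⟫)` is never in `ℝ^m_+ \ {0}` for `y ∈ K`. -/
def Sol {n m : ℕ} (F : Fin m → EuclideanSpace ℝ (Fin n) → EuclideanSpace ℝ (Fin n))
    (K : Set (EuclideanSpace ℝ (Fin n))) : Set (EuclideanSpace ℝ (Fin n)) :=
  {x | x ∈ K ∧ ∀ y ∈ K, ¬ ((∀ l, 0 ≤ ⟪F l x, x - y⟫) ∧ ∃ l, ⟪F l x, x - y⟫ ≠ 0)}

/-- Monotonicity of a map on a set. -/
def MonotoneOn' {n : ℕ} (f : EuclideanSpace ℝ (Fin n) → EuclideanSpace ℝ (Fin n))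
    (K : Set (EuclideanSpace ℝ (Fin n))) : Prop :=
  ∀ x ∈ K, ∀ y ∈ K, 0 ≤ ⟪f y - f x, y - x⟫

/-! ### The example -/

/-- ambient space -/
abbrev E4 : Type := EuclideanSpace ℝ (Fin 4)

/-- The compact convex set. -/
def KK : Set E4 :=
  {y | 0 ≤ y 0 ∧ y 0 ≤ 1 ∧ 0 ≤ y 1 ∧ y 1 ≤ 1 ∧ (y 3) ^ 2 ≤ y 2 ∧ y 2 ≤ 1}

/-- The two maps. -/
noncomputable def FF : Fin 2 → E4 → E4 :=
  ![fun y => !₂[y 2, y 1, 2 - y 0, 0], fun y => !₂[-y 1, y 0 - 1, 0, 5]]

lemma inner_four (a b : E4) :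
    ⟪a, b⟫ = a 0 * b 0 + a 1 * b 1 + a 2 * b 2 + a 3 * b 3 := by
  rw [PiLp.inner_apply, Fin.sum_univ_four]
  simp [mul_comm]

lemma F0 (x d : E4) : ⟪FF 0 x, d⟫ = x 2 * d 0 + x 1 * d 1 + (2 - x 0) * d 2 := by
  rw [inner_four]; simp [FF]

lemma F1 (x d : E4) : ⟪FF 1 x, d⟫ = -x 1 * d 0 + (x 0 - 1) * d 1 + 5 * d 3 := by
  rw [inner_four]; simp [FF]

lemma continuous_FF (l : Fin 2) : Continuous (FF l) := by
  fin_cases l
  · show Continuous (fun y : E4 => (!₂[y 2, y 1, 2 - y 0, 0] : E4))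
    apply (PiLp.continuous_toLp 2 _).comp
    apply continuous_pi
    intro i
    fin_cases i <;> simp <;> fun_prop
  · show Continuous (fun y : E4 => (!₂[-y 1, y 0 - 1, 0, 5] : E4))
    apply (PiLp.continuous_toLp 2 _).comp
    apply continuous_pi
    intro i
    fin_cases i <;> simp <;> fun_prop

lemma monotone_FF (l : Fin 2) : MonotoneOn' (FF l) KK := by
  intro x _ y _
  fin_cases l
  · show 0 ≤ ⟪FF 0 y - FF 0 x, y - x⟫
    rw [inner_sub_left, F0, F0]
    simp only [PiLp.sub_apply]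
    nlinarith [sq_nonneg (y 1 - x 1)]
  · show 0 ≤ ⟪FF 1 y - FF 1 x, y - x⟫
    rw [inner_sub_left, F1, F1]
    simp only [PiLp.sub_apply]
    nlinarith

lemma isClosed_KK : IsClosed KK := by
  have h : ∀ i : Fin 4, Continuous (fun y : E4 => y i) := fun i => by fun_prop
  unfold KK
  refine (isClosed_le continuous_const (h 0)).inter
    ((isClosed_le (h 0) continuous_const).inter
    ((isClosed_le continuous_const (h 1)).inter
    ((isClosed_le (h 1) continuous_const).inter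
    ((isClosed_le ((h 3).pow 2) (h 2)).inter
    (isClosed_le (h 2) continuous_const)))))

lemma bounded_KK : Bornology.IsBounded KK := by
  rw [isBounded_iff_forall_norm_le]
  refine ⟨2, ?_⟩
  intro y hy
  obtain ⟨h0, h0', h1, h1', h2, h2'⟩ := hy
  rw [EuclideanSpace.norm_eq, Fin.sum_univ_four]
  rw [Real.sqrt_le_left (by norm_num)]
  simp only [Real.norm_eq_abs, sq_abs]
  have h3 : 0 ≤ y 2 := le_trans (sq_nonneg _) h2
  nlinarith

lemma isCompact_KK : IsCompact KK := Metric.isCompact_of_isClosed_isBounded isClosed_KK bounded_KK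

lemma convex_KK : Convex ℝ KK := by
  intro x hx y hy a b ha hb hab
  obtain ⟨x0, x0', x1, x1', x2, x2'⟩ := hx
  obtain ⟨y0, y0', y1, y1', y2, y2'⟩ := hy
  refine ⟨?_, ?_, ?_, ?_, ?_, ?_⟩ <;>
    simp only [PiLp.add_apply, PiLp.smul_apply, smul_eq_mul]
  · positivity
  · nlinarith
  · positivity
  · nlinarith
  · have hb' : b = 1 - a := by linarith
    subst hb'
    nlinarith [mul_nonneg ha hb, mul_nonneg (mul_nonneg ha hb) (sq_nonneg (x 3 - y 3)),
      mul_le_mul_of_nonneg_left x2 ha, mul_le_mul_of_nonneg_left y2 hb]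
  · nlinarith

/-- The isolated solution. -/
noncomputable def q : E4 := !₂[1, 0, 0, 0]

/-- Another solution. -/
noncomputable def p : E4 := !₂[0, 2/5, 1/4, -1/2]

lemma q_mem_KK : q ∈ KK := by
  simp [KK, q]

lemma p_mem_KK : p ∈ KK := by
  simp [KK, p]; norm_num

lemma q_mem : q ∈ Sol FF KK := by
  refine ⟨q_mem_KK, ?_⟩
  rintro y ⟨y0, y0', y1, y1', y2, y2'⟩ ⟨hnn, l, hl⟩
  have a0 := hnn 0
  have a1 := hnn 1
  have e0 : ⟪FF 0 q, q - y⟫ = - y 2 := by
    rw [F0]; simp [q]; ring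
  have e1 : ⟪FF 1 q, q - y⟫ = - 5 * y 3 := by
    rw [F1]; simp [q]
  rw [e0] at a0
  rw [e1] at a1
  have h2 : y 2 = 0 := by nlinarith [sq_nonneg (y 3)]
  have h3 : y 3 = 0 := by
    rw [h2] at y2
    nlinarith [sq_nonneg (y 3), pow_eq_zero_iff (two_ne_zero) (a := y 3),
      (pow_eq_zero_iff (two_ne_zero) (a := y 3)).mp (le_antisymm y2 (sq_nonneg _))]
  fin_cases l
  · apply hl
    show ⟪FF 0 q, q - y⟫ = 0
    rw [e0, h2]; simp
  · apply hl
    show ⟪FF 1 q, q - y⟫ = 0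
    rw [e1, h3]; simp

lemma p_mem : p ∈ Sol FF KK := by
  refine ⟨p_mem_KK, ?_⟩
  rintro y ⟨y0, y0', y1, y1', y2, y2'⟩ ⟨hnn, l, hl⟩
  have a0 := hnn 0
  have a1 := hnn 1
  have e0 : ⟪FF 0 p, p - y⟫ = -(1/4) * y 0 + 2/5 * (2/5 - y 1) + 2 * (1/4 - y 2) := by
    rw [F0]; simp [p]
  have e1 : ⟪FF 1 p, p - y⟫ = 2/5 * y 0 - (2/5 - y 1) + 5 * (-1/2 - y 3) := by
    rw [F1]; simp [p]; ring
  rw [e0] at a0
  rw [e1] at a1
  -- `F₀ + (2/5) F₁` is minimised over `K` at `p`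
  have key : (-(1/4) * y 0 + 2/5 * (2/5 - y 1) + 2 * (1/4 - y 2))
      + 2/5 * (2/5 * y 0 - (2/5 - y 1) + 5 * (-1/2 - y 3)) ≤ 0 := by
    nlinarith [sq_nonneg (y 3 + 1/2)]
  have b0 : -(1/4) * y 0 + 2/5 * (2/5 - y 1) + 2 * (1/4 - y 2) = 0 := by linarith
  have b1 : 2/5 * y 0 - (2/5 - y 1) + 5 * (-1/2 - y 3) = 0 := by linarith
  fin_cases l
  · apply hl
    show ⟪FF 0 p, p - y⟫ = 0
    rw [e0, b0]
  · apply hl
    show ⟪FF 1 p, p - y⟫ = 0
    rw [e1, b1]

/-- Domination criterion. -/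
lemma not_sol {x y : E4} (hy : y ∈ KK)
    (h0 : x 2 * (y 0 - x 0) + x 1 * (y 1 - x 1) + (2 - x 0) * (y 2 - x 2) ≤ 0)
    (h1 : -x 1 * (y 0 - x 0) + (x 0 - 1) * (y 1 - x 1) + 5 * (y 3 - x 3) ≤ 0)
    (h : x 2 * (y 0 - x 0) + x 1 * (y 1 - x 1) + (2 - x 0) * (y 2 - x 2) < 0 ∨
      -x 1 * (y 0 - x 0) + (x 0 - 1) * (y 1 - x 1) + 5 * (y 3 - x 3) < 0) :
    x ∉ Sol FF KK := by
  rintro ⟨_, hx⟩
  apply hx y hy
  have e0 : ⟪FF 0 x, x - y⟫
      = -(x 2 * (y 0 - x 0) + x 1 * (y 1 - x 1) + (2 - x 0) * (y 2 - x 2)) := by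
    rw [F0]; simp only [PiLp.sub_apply]; ring
  have e1 : ⟪FF 1 x, x - y⟫
      = -(-x 1 * (y 0 - x 0) + (x 0 - 1) * (y 1 - x 1) + 5 * (y 3 - x 3)) := by
    rw [F1]; simp only [PiLp.sub_apply]; ring
  constructor
  · intro l
    fin_cases l
    · show 0 ≤ ⟪FF 0 x, x - y⟫
      rw [e0]; linarith
    · show 0 ≤ ⟪FF 1 x, x - y⟫
      rw [e1]; linarith
  · rcases h with h | h
    · refine ⟨0, ?_⟩
      rw [e0]; exact ne_of_gt (by linarith)
    · refine ⟨1, ?_⟩
      rw [e1]; exact ne_of_gt (by linarith)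

lemma mem_KK {a b c d : ℝ} (ha : 0 ≤ a) (ha' : a ≤ 1) (hb : 0 ≤ b) (hb' : b ≤ 1)
    (hc : d ^ 2 ≤ c) (hc' : c ≤ 1) : (!₂[a, b, c, d] : E4) ∈ KK := ⟨ha, ha', hb, hb', hc, hc'⟩

lemma not_sol' {x : E4} {a b c d : ℝ} (ha : 0 ≤ a) (ha' : a ≤ 1) (hb : 0 ≤ b) (hb' : b ≤ 1)
    (hc : d ^ 2 ≤ c) (hc' : c ≤ 1)
    (h0 : x 2 * (a - x 0) + x 1 * (b - x 1) + (2 - x 0) * (c - x 2) ≤ 0)
    (h1 : -x 1 * (a - x 0) + (x 0 - 1) * (b - x 1) + 5 * (d - x 3) ≤ 0)
    (h : x 2 * (a - x 0) + x 1 * (b - x 1) + (2 - x 0) * (c - x 2) < 0 ∨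
      -x 1 * (a - x 0) + (x 0 - 1) * (b - x 1) + 5 * (d - x 3) < 0) :
    x ∉ Sol FF KK :=
  not_sol (mem_KK ha ha' hb hb' hc hc') h0 h1 h

lemma exists_small {A B C : ℝ} (hA : 0 < A) (hB : 0 < B) (hC : 0 < C) :
    ∃ s : ℝ, 0 < s ∧ s ≤ A ∧ s ≤ B ∧ s ≤ C :=
  ⟨min A (min B C), lt_min hA (lt_min hB hC), min_le_left _ _,
    (min_le_right _ _).trans (min_le_left _ _), (min_le_right _ _).trans (min_le_right _ _)⟩

/-- Every solution other than `q` has first coordinate `0` or last coordinate `-1`. -/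
lemma sol_subset {x : E4} (hx : x ∈ Sol FF KK) (hx0 : 0 < x 0) (hx3 : -1 < x 3) : x = q := by
  obtain ⟨x0, x0', x1, x1', x2, x2'⟩ := hx.1
  by_contra hne
  -- Case A
  rcases lt_or_eq_of_le x2 with hA | hA
  · refine not_sol' (a := x 0) (b := x 1) (c := (x 3) ^ 2) (d := x 3) x0 x0' x1 x1' le_rfl
      (by linarith) ?_ ?_ ?_ hx
    · nlinarith
    · nlinarith
    · left; nlinarith
  rcases lt_trichotomy (x 3) 0 with h3 | h3 | h3
  · -- Case C: `w = - x 3 ∈ (0, 1)`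
    obtain ⟨w, hw⟩ : ∃ w, w = - x 3 := ⟨_, rfl⟩
    have hw0 : 0 < w := by linarith
    have hw1 : w < 1 := by linarith
    have hx3w : x 3 = -w := by linarith
    have hx2w : x 2 = w ^ 2 := by rw [← hA, hx3w]; ring
    obtain ⟨D, hD⟩ : ∃ D, D = 2 - x 0 := ⟨_, rfl⟩
    have hD1 : 1 ≤ D := by linarith
    have hD2 : D < 2 := by linarith
    have hxD : x 0 = 2 - D := by linarith
    obtain ⟨z, hz⟩ : ∃ z, z = x 1 := ⟨_, rfl⟩
    rw [← hz] at x1 x1'
    by_cases hcase : 2 * D * z < 5 * w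
    · -- decrease coordinates 0 and 3
      have hG : 0 < 5 * w - 2 * D * z := by linarith
      obtain ⟨s, hs, hs1, hs2, hs3⟩ := exists_small (A := (5 * w - 2 * D * z) / (50 * w))
        (B := x 0 / 40) (C := (1 - w) / 10) (by positivity) (by positivity) (by linarith)
      obtain ⟨N, hN⟩ : ∃ N, N = 2 * D * z + 5 * w := ⟨_, rfl⟩
      have hN0 : 0 < N := by rw [hN]; positivity
      have hN1 : N ≤ 10 * w := by rw [hN]; linarith
      have hs1' : s * (50 * w) ≤ 5 * w - 2 * D * z := by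
        rwa [le_div_iff₀ (by positivity)] at hs1
      have hη : s * N ≤ 1 - w := by
        calc s * N ≤ s * (10 * w) := by gcongr
          _ ≤ s * 10 := by nlinarith
          _ ≤ 1 - w := by linarith
      have hηp : 0 < s * N := by positivity
      have hkey : w ^ 2 * (x 0 - 20 * D * s - x 0) + z * (z - z)
          + D * ((w + s * N) ^ 2 - w ^ 2) ≤ 0 := by
        have e : w ^ 2 * (x 0 - 20 * D * s - x 0) + z * (z - z)
          + D * ((w + s * N) ^ 2 - w ^ 2)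
          = (s * D) * (s * N ^ 2 - 2 * w * (5 * w - 2 * D * z)) := by
          rw [hN]; ring
        rw [e]
        apply mul_nonpos_of_nonneg_of_nonpos (by positivity)
        have : s * N ^ 2 ≤ 2 * w * (s * (50 * w)) := by
          have : N ^ 2 ≤ (10 * w) ^ 2 := pow_le_pow_left₀ hN0.le hN1 2
          calc s * N ^ 2 ≤ s * (10 * w) ^ 2 := by gcongr
            _ = 2 * w * (s * (50 * w)) := by ring
        have : 2 * w * (s * (50 * w)) ≤ 2 * w * (5 * w - 2 * D * z) := by gcongr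
        linarith
      have hkey2 : -z * (x 0 - 20 * D * s - x 0) + (x 0 - 1) * (z - z)
          + 5 * (-(w + s * N) - -w) < 0 := by
        have e : -z * (x 0 - 20 * D * s - x 0) + (x 0 - 1) * (z - z)
          + 5 * (-(w + s * N) - -w) = - (5 * (s * (5 * w - 2 * D * z))) := by
          rw [hN]; ring
        rw [e]
        have := mul_pos hs hG
        linarith
      have hsq : (w + s * N) ^ 2 ≤ 1 := pow_le_one₀ (by linarith) (by linarith)
      have hDs : D * s ≤ 2 * s := mul_le_mul_of_nonneg_right hD2.le hs.le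
      have hDs' : 0 ≤ D * s := by positivity
      have hlow : 0 ≤ x 0 - 20 * D * s := by linarith
      have hupp : x 0 - 20 * D * s ≤ 1 := by linarith
      refine not_sol' (a := x 0 - 20 * D * s) (b := z) (c := (w + s * N) ^ 2)
        (d := -(w + s * N)) hlow hupp x1 x1' (neg_sq _).le hsq
        ?_ ?_ ?_ hx
      · rw [← hz, hx2w, ← hD]; exact hkey
      · rw [← hz, hx3w]; exact hkey2.le
      · right; rw [← hz, hx3w]; exact hkey2
    · push Not at hcase
      have hz0 : 0 < z := by nlinarith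
      obtain ⟨s, hs, hs1, hs2, hs3⟩ := exists_small hz0 (B := 1 - w) (C := w) (by linarith) hw0
      have hkey : w ^ 2 * (x 0 - x 0) + z * (z - s - z)
          + D * ((w + s / 5) ^ 2 - w ^ 2) ≤ 0 := by
        have e : w ^ 2 * (x 0 - x 0) + z * (z - s - z)
          + D * ((w + s / 5) ^ 2 - w ^ 2)
          = s * (D * (2 * w / 5 + s / 25) - z) := by ring
        rw [e]
        apply mul_nonpos_of_nonneg_of_nonpos hs.le
        have h1 : D * (2 * w / 5 + s / 25) ≤ D * (2 * w / 5 + w / 25) := by gcongr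
        have h2 : D * (2 * w / 5 + w / 25) ≤ 22 / 25 * w := by nlinarith
        have h3 : 5 / 4 * w ≤ z := by nlinarith
        linarith
      have hkey2 : -z * (x 0 - x 0) + (x 0 - 1) * (z - s - z)
          + 5 * (-(w + s / 5) - -w) < 0 := by
        have e : -z * (x 0 - x 0) + (x 0 - 1) * (z - s - z)
          + 5 * (-(w + s / 5) - -w) = - (x 0 * s) := by ring
        rw [e]
        have := mul_pos hx0 hs
        linarith
      refine not_sol' (a := x 0) (b := z - s) (c := (w + s / 5) ^ 2)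
        (d := -(w + s / 5)) x0 x0' (by linarith) (by linarith) (neg_sq _).le
        (pow_le_one₀ (by linarith) (by linarith)) ?_ ?_ ?_ hx
      · rw [← hz, hx2w, ← hD]; exact hkey
      · rw [← hz, hx3w]; exact hkey2.le
      · right; rw [← hz, hx3w]; exact hkey2
  · -- Case D
    have hx2 : x 2 = 0 := by rw [← hA, h3]; ring
    rcases lt_or_eq_of_le x1 with h1 | h1
    · -- `b = η = x 1 / 4`
      refine not_sol' (a := x 0) (b := x 1 - x 1 / 4) (c := (x 1 / 4) ^ 2) (d := -(x 1 / 4))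
        x0 x0' (by linarith) (by linarith) (by nlinarith) (by nlinarith) ?_ ?_ ?_ hx
      · rw [hx2]; nlinarith
      · rw [h3]; nlinarith
      · left; rw [hx2]; nlinarith
    · rcases lt_or_eq_of_le x0' with h0 | h0
      · refine not_sol' (a := x 0) (b := 1) (c := x 2) (d := x 3) x0 x0' (by norm_num)
          (by norm_num) x2 x2' ?_ ?_ ?_ hx
        · rw [← h1]; simp
        · rw [← h1]; simp; linarith
        · right; rw [← h1]; simp; linarith
      · apply hne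
        ext i
        fin_cases i
        · simp [q, h0]
        · simp [q, ← h1]
        · simp [q, hx2]
        · simp [q, h3]
  · refine not_sol' (a := x 0) (b := x 1) (c := 0) (d := 0) x0 x0' x1 x1' (by norm_num)
      (by norm_num) ?_ ?_ ?_ hx
    · nlinarith
    · nlinarith
    · right; nlinarith

lemma not_preconnected : ¬ IsPreconnected (Sol FF KK) := by
  intro h
  have hU : IsOpen {x : E4 | 0 < x 0 ∧ -1 < x 3} := by
    have h0 : Continuous (fun y : E4 => y 0) := by fun_prop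
    have h3 : Continuous (fun y : E4 => y 3) := by fun_prop
    exact (isOpen_lt continuous_const h0).inter (isOpen_lt continuous_const h3)
  have hV : IsOpen {x : E4 | x ≠ q} := isOpen_ne
  obtain ⟨z, hz, hzU, hzV⟩ := h _ _ hU hV (by
      intro x hx
      by_cases hxq : x = q
      · left; rw [hxq]; simp [q]
      · right; exact hxq)
    ⟨q, q_mem, by simp [q]⟩
    ⟨p, p_mem, by
      intro hpq
      have := congrArg (fun y : E4 => y 0) hpq
      simp [p, q] at this⟩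
  exact hzV (sol_subset hz hzU.1 hzU.2)

/-- **Negative answer to Q1**: there are a nonempty compact convex set `K` in some `ℝⁿ` and
continuous monotone maps `F₁, …, F_m` for which the Pareto solution set is nonempty, bounded and
not connected (here `n = 4`, `m = 2`). -/
theorem result : ∃ (n m : ℕ) (K : Set (EuclideanSpace ℝ (Fin n)))
    (F : Fin m → EuclideanSpace ℝ (Fin n) → EuclideanSpace ℝ (Fin n)),
    K.Nonempty ∧ IsCompact K ∧ Convex ℝ K ∧ (∀ l, Continuous (F l)) ∧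
    (∀ l, MonotoneOn' (F l) K) ∧ (Sol F K).Nonempty ∧ Bornology.IsBounded (Sol F K) ∧
    ¬ IsPreconnected (Sol F K) :=
  ⟨4, 2, KK, FF, ⟨q, q_mem_KK⟩, isCompact_KK, convex_KK, continuous_FF, monotone_FF,
    ⟨q, q_mem⟩, bounded_KK.subset (fun _ hx => hx.1), not_preconnected⟩

end Pool.Agent.Results.MP_177738_an.CompactDisconnected
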